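import Pool.Agent.Work.MP_d4551b_al.Proof

namespace Pool.Agent.Results.MP_d4551b_al.Disproof

open Pool.Agent.Work.MP_d4551b_al

/-- There is a nonempty word `r` over a two-letter alphabet (with formal inverses) such that for
every `k ≥ 2` the set of minimal invertible pieces of `r ^ k` in `Inv⟨A | r ^ k = 1⟩` differs from
the set of minimal invertible pieces of `r` in `Inv⟨A | r = 1⟩`. -/
theorem result :
    ∃ r : Word (Fin 2), r ≠ 1 ∧ ∀ k : ℕ, 2 ≤ k → pieces (r ^ k) ≠ pieces r :=
  main

end Pool.Agent.Results.MP_d4551b_al.Disproof
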